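import Pool.Agent.Helper86.QA.St5

set_option autoImplicit false

open MeasureTheory Matrix Set Topology Filter
open scoped ENNReal ComplexConjugate ComplexOrder

namespace Pool.Agent.Helper10.QA

open Pool.Agent.Helper86.QA Pool.Agent.Helper20

private theorem k2_nonneg (ε : ℝ) (x y : ℂ) : 0 ≤ k2 ε x y := by
  unfold k2
  split_ifs <;> norm_num

/-- pointwise bound -/
private theorem pw {ε M : ℝ} (hK : ∀ x y z : ℂ, |K2 ε x y z| ≤ k2 ε x y * k2 ε x z)
    (x y z : ℂ) (t : ℝ) (ht : |t| ≤ M) :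
    ENNReal.ofReal |K2 ε x y z * t| ≤
      ENNReal.ofReal M * ENNReal.ofReal (k2 ε x y) * ENNReal.ofReal (k2 ε x z) := by
  have hM : 0 ≤ M := (abs_nonneg t).trans ht
  rw [← ENNReal.ofReal_mul hM, ← ENNReal.ofReal_mul (mul_nonneg hM (k2_nonneg _ _ _))]
  apply ENNReal.ofReal_le_ofReal
  rw [abs_mul]
  calc |K2 ε x y z| * |t| ≤ (k2 ε x y * k2 ε x z) * M :=
        mul_le_mul (hK x y z) ht (abs_nonneg _) (mul_nonneg (k2_nonneg _ _ _) (k2_nonneg _ _ _))
    _ = M * k2 ε x y * k2 ε x z := by ring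

/-- bound for the integral in the last variable -/
private theorem b1 {ε M : ℝ} (hK : ∀ x y z : ℂ, |K2 ε x y z| ≤ k2 ε x y * k2 ε x z)
    {m : ℝ≥0∞} {x : ℂ} (hm : ∫⁻ y, ENNReal.ofReal (k2 ε x y) ∂m2 = m) (y : ℂ) (g : ℂ → ℝ)
    (hg : ∀ z, |g z| ≤ M) :
    ∫⁻ z, ENNReal.ofReal |K2 ε x y z * g z| ∂m2 ≤
      ENNReal.ofReal M * ENNReal.ofReal (k2 ε x y) * m := by
  calc ∫⁻ z, ENNReal.ofReal |K2 ε x y z * g z| ∂m2
      ≤ ∫⁻ z, ENNReal.ofReal M * ENNReal.ofReal (k2 ε x y) * ENNReal.ofReal (k2 ε x z) ∂m2 :=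
        lintegral_mono fun z => pw hK x y z (g z) (hg z)
    _ = ENNReal.ofReal M * ENNReal.ofReal (k2 ε x y) * m := by
        rw [lintegral_const_mul' _ _ (by finiteness), hm]

private theorem b2 {ε M : ℝ} {m : ℝ≥0∞} (hm1 : m ≠ ∞) {x : ℂ}
    (hm : ∫⁻ y, ENNReal.ofReal (k2 ε x y) ∂m2 = m) :
    ∫⁻ y, ENNReal.ofReal M * ENNReal.ofReal (k2 ε x y) * m ∂m2 = ENNReal.ofReal M * m * m := by
  have e : ∀ y, ENNReal.ofReal M * ENNReal.ofReal (k2 ε x y) * m =
      ENNReal.ofReal M * m * ENNReal.ofReal (k2 ε x y) := fun y => by ring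
  simp only [e]
  rw [lintegral_const_mul' _ _ (by finiteness), hm]

/-- integrability on the product -/
private theorem integ [SFinite m2] (f : ℂ × ℂ → ℝ) (hf : Measurable f)
    (h : ∫⁻ x, ∫⁻ y, ENNReal.ofReal |f (x, y)| ∂m2 ∂m2 ≠ ∞) : Integrable f (m2.prod m2) := by
  refine ⟨hf.aestronglyMeasurable, ?_⟩
  unfold HasFiniteIntegral
  have e : ∫⁻ p, ‖f p‖ₑ ∂(m2.prod m2) = ∫⁻ x, ∫⁻ y, ENNReal.ofReal |f (x, y)| ∂m2 ∂m2 := by
    rw [lintegral_prod _ hf.enorm.aemeasurable]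
    simp only [Real.enorm_eq_ofReal_abs]
  rw [e]
  exact lt_top_iff_ne_top.2 h

private theorem ms1 {α : Type*} [MeasurableSpace α] (K : ℂ → ℂ → ℂ → ℝ)
    (hK : Measurable fun p : ℂ × ℂ × ℂ => K p.1 p.2.1 p.2.2) (f g h : α → ℂ)
    (hf : Measurable f) (hg : Measurable g) (hh : Measurable h) :
    Measurable fun a => K (f a) (g a) (h a) :=
  hK.comp (hf.prodMk (hg.prodMk hh))

private theorem ms2 {α : Type*} [MeasurableSpace α] (b : ℂ → ℂ → ℝ)
    (hb : Measurable fun p : ℂ × ℂ => b p.1 p.2) (f g : α → ℂ)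
    (hf : Measurable f) (hg : Measurable g) :
    Measurable fun a => b (f a) (g a) :=
  hb.comp (hf.prodMk hg)

private theorem meas_aux [SFinite m2] (K : ℂ → ℂ → ℂ → ℝ) (b : ℂ → ℂ → ℝ)
    (hK : Measurable fun p : ℂ × ℂ × ℂ => K p.1 p.2.1 p.2.2)
    (hb : Measurable fun p : ℂ × ℂ => b p.1 p.2)
    (h3 : Measurable (fun q : (ℂ × ℂ) × ℂ => ((q.1.1, q.1.2, q.2) : ℂ × ℂ × ℂ)))
    (h4 : Measurable (fun q : (ℂ × ℂ) × ℂ => ((q.1.2, q.2) : ℂ × ℂ))) :
    Measurable fun p : ℂ × ℂ => ∫ z, K p.1 p.2 z * b p.2 z ∂m2 := by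
  have h5 : Measurable (fun q : (ℂ × ℂ) × ℂ => K q.1.1 q.1.2 q.2) := hK.comp h3
  have h6 : Measurable (fun q : (ℂ × ℂ) × ℂ => b q.1.2 q.2) := hb.comp h4
  have h2 : Measurable (fun q : (ℂ × ℂ) × ℂ => K q.1.1 q.1.2 q.2 * b q.1.2 q.2) := h5.mul h6
  exact (h2.stronglyMeasurable.integral_prod_right (ν := m2)).measurable

theorem hAV0 (hSWS : StSWS) (hMQ1 : StMQ1) (hMQ2 : StMQ2) (hAFD : StAFD) : StAV0 := by
  intro Γ _ σ hσ htf F hF ε h0 h1 b hbm hbM hinv
  obtain ⟨M, hM⟩ := hbM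
  obtain ⟨hcount, hact, -, hFfin, -⟩ := hAFD Γ σ hσ htf
  obtain ⟨hSF, hnull, -, -, -, -, hball⟩ := hMQ1
  obtain ⟨hK1, hK2, hK3, hK4, hK5⟩ := hMQ2 ε h0 h1
  set m : ℝ≥0∞ := m2 (Metric.ball 0 ε) with hm
  have hm1 : m ≠ ∞ := ((measure_mono Metric.ball_subset_closedBall).trans_lt (hball ε h1)).ne
  have hae : ∀ᵐ x ∂m2, x ∈ Metric.ball (0 : ℂ) 1 := mem_ae_iff.2 hnull
  have hMM : ENNReal.ofReal M * m * m ≠ ∞ := by finiteness
  -- integrability for fixed first point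
  have hint : ∀ x ∈ Metric.ball (0 : ℂ) 1, ∀ g : ℂ × ℂ → ℝ, Measurable g → (∀ p, |g p| ≤ M) →
      Integrable (fun p : ℂ × ℂ => K2 ε x p.1 p.2 * g p) (m2.prod m2) := by
    intro x hx g hg hgM
    apply integ
    · exact (ms1 (K2 ε) hK4 (fun _ => x) (fun p : ℂ × ℂ => p.1) (fun p => p.2)
        measurable_const measurable_fst measurable_snd).mul hg
    · apply ne_top_of_le_ne_top hMM
      rw [← b2 (M := M) hm1 (hK3 x hx)]
      exact lintegral_mono fun y => b1 hK2 (hK3 x hx) y (fun z => g (y, z)) (fun z => hgM _)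
  let H : ℂ → ℂ → ℝ := fun x y => ∫ z, K2 ε x y z * b y z ∂m2
  -- step one
  have hstep1 : ∀ x ∈ Metric.ball (0 : ℂ) 1,
      ∫ p : ℂ × ℂ, K2 ε x p.1 p.2 * (b p.1 p.2 - b x p.2 + b x p.1) ∂(m2.prod m2) =
        ∫ y, H x y ∂m2 := by
    intro x hx
    have i1 := hint x hx (fun p => b p.1 p.2) hbm (fun p => hM _ _)
    have i2 := hint x hx (fun p => b x p.2)
      (ms2 b hbm (fun _ => x) (fun p : ℂ × ℂ => p.2) measurable_const measurable_snd)
      (fun p => hM _ _)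
    have i3 := hint x hx (fun p => b x p.1)
      (ms2 b hbm (fun _ => x) (fun p : ℂ × ℂ => p.1) measurable_const measurable_fst)
      (fun p => hM _ _)
    have e : (fun p : ℂ × ℂ => K2 ε x p.1 p.2 * (b p.1 p.2 - b x p.2 + b x p.1)) =
        fun p => K2 ε x p.1 p.2 * b p.1 p.2 - K2 ε x p.1 p.2 * b x p.2 +
          K2 ε x p.1 p.2 * b x p.1 := by
      funext p
      ring
    have z2 : ∫ p : ℂ × ℂ, K2 ε x p.1 p.2 * b x p.2 ∂(m2.prod m2) = 0 := by
      rw [integral_prod_symm _ i2]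
      apply integral_eq_zero_of_ae
      filter_upwards [hae] with y hy
      change ∫ u, K2 ε x u y * b x y ∂m2 = 0
      rw [integral_mul_const, (hK5 x hx y hy).1, zero_mul]
    have z3 : ∫ p : ℂ × ℂ, K2 ε x p.1 p.2 * b x p.1 ∂(m2.prod m2) = 0 := by
      rw [integral_prod _ i3]
      apply integral_eq_zero_of_ae
      filter_upwards [hae] with y hy
      change ∫ u, K2 ε x y u * b x y ∂m2 = 0
      rw [integral_mul_const, (hK5 x hx y hy).2.1, zero_mul]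
    have i12 : Integrable (fun p : ℂ × ℂ => K2 ε x p.1 p.2 * b p.1 p.2 -
        K2 ε x p.1 p.2 * b x p.2) (m2.prod m2) := i1.sub i2
    rw [e, integral_add i12 i3, integral_sub i1 i2, z2, z3, sub_zero, add_zero,
      integral_prod _ i1]
  -- step two
  have hHm : Measurable (fun p : ℂ × ℂ => H p.1 p.2) := by
    have h3 : Measurable (fun q : (ℂ × ℂ) × ℂ => ((q.1.1, q.1.2, q.2) : ℂ × ℂ × ℂ)) := by
      fun_prop
    have h4 : Measurable (fun q : (ℂ × ℂ) × ℂ => ((q.1.2, q.2) : ℂ × ℂ)) := by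
      fun_prop
    exact meas_aux (K2 ε) b hK4 hbm h3 h4
  have hmp : ∀ γ : Γ, MeasurePreserving (ad σ γ) m2 m2 := by
    intro γ
    refine ⟨hact.me γ, Measure.ext fun s hs => ?_⟩
    rw [Measure.map_apply (hact.me γ) hs, ← lintegral_indicator_one (hact.me γ hs),
      ← lintegral_indicator_one hs, ← hact.pr γ _ (measurable_one.indicator hs)]
    rfl
  have hHinv : ∀ (γ : Γ), ∀ x ∈ Metric.ball (0 : ℂ) 1, ∀ y ∈ Metric.ball (0 : ℂ) 1,
      H (ad σ γ x) (ad σ γ y) = H x y := by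
    intro γ x hx y hy
    have h2 : Measurable (fun z : ℂ => K2 ε (ad σ γ x) (ad σ γ y) z * b (ad σ γ y) z) :=
      (ms1 (K2 ε) hK4 (fun _ => ad σ γ x) (fun _ => ad σ γ y) (fun z : ℂ => z)
        measurable_const measurable_const measurable_id).mul
      (ms2 b hbm (fun _ => ad σ γ y) (fun z : ℂ => z) measurable_const measurable_id)
    change ∫ z, K2 ε (ad σ γ x) (ad σ γ y) z * b (ad σ γ y) z ∂m2 = _
    conv_lhs => rw [← (hmp γ).map_eq]
    rw [integral_map (hact.me γ).aemeasurable h2.aestronglyMeasurable]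
    apply integral_congr_ae
    filter_upwards [hae] with z hz
    have h3 := (hK1 (σ γ) (hσ.su γ) x hx y hy z hz).1
    have h4 := hinv γ y hy z hz
    have h5 : K2 ε (ad σ γ x) (ad σ γ y) (ad σ γ z) = K2 ε x y z := h3
    rw [h5, h4]
  have hfinH : ∫⁻ x in F, ∫⁻ y, ENNReal.ofReal |H x y| ∂m2 ∂m2 ≠ ∞ := by
    have h2 : ∀ x ∈ F, ∫⁻ y, ENNReal.ofReal |H x y| ∂m2 ≤ ENNReal.ofReal M * m * m := by
      intro x hx
      have hx' := hF.sub hx
      rw [← b2 (M := M) hm1 (hK3 x hx')]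
      apply lintegral_mono
      intro y
      refine le_trans ?_ (b1 hK2 (hK3 x hx') y (fun z => b y z) (fun z => hM _ _))
      change ENNReal.ofReal |∫ z, K2 ε x y z * b y z ∂m2| ≤ _
      rw [← Real.enorm_eq_ofReal_abs]
      refine (enorm_integral_le_lintegral_enorm _).trans (le_of_eq ?_)
      simp only [Real.enorm_eq_ofReal_abs]
    apply ne_top_of_le_ne_top (b := (ENNReal.ofReal M * m * m) * m2 F)
    · exact ENNReal.mul_ne_top hMM (hFfin F hF).1.ne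
    · calc ∫⁻ x in F, ∫⁻ y, ENNReal.ofReal |H x y| ∂m2 ∂m2
          ≤ ∫⁻ x in F, ENNReal.ofReal M * m * m ∂m2 := setLIntegral_mono' hF.mD h2
        _ = (ENNReal.ofReal M * m * m) * m2 F := setLIntegral_const _ _
  have hsw := (hSWS Γ ℂ (ad σ) (Metric.ball 0 1) F m2 H hact hF hHm hHinv hfinH).1
  -- step three
  have hstep3 : ∀ y ∈ Metric.ball (0 : ℂ) 1, ∫ x, H x y ∂m2 = 0 := by
    intro y hy
    have h2 : Measurable (fun q : ℂ × ℂ => K2 ε q.1 y q.2 * b y q.2) :=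
      (ms1 (K2 ε) hK4 (fun q : ℂ × ℂ => q.1) (fun _ => y) (fun q => q.2)
        measurable_fst measurable_const measurable_snd).mul
      (ms2 b hbm (fun _ => y) (fun q : ℂ × ℂ => q.2) measurable_const measurable_snd)
    have h3 : Integrable (Function.uncurry fun x z => K2 ε x y z * b y z) (m2.prod m2) := by
      refine integ _ h2 ?_
      apply ne_top_of_le_ne_top hMM
      rw [← b2 (M := M) hm1 (hK3 y hy)]
      apply lintegral_mono_ae
      filter_upwards [hae] with x hx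
      have h4 := b1 hK2 (hK3 x hx) y (fun z => b y z) (fun z => hM _ _)
      rw [(hK1 (σ 1) (hσ.su 1) x hx y hy y hy).2.2] at h4
      exact h4
    change ∫ x, ∫ z, K2 ε x y z * b y z ∂m2 ∂m2 = 0
    rw [integral_integral_swap h3]
    apply integral_eq_zero_of_ae
    filter_upwards [hae] with z hz
    change ∫ x, K2 ε x y z * b y z ∂m2 = 0
    rw [integral_mul_const, (hK5 y hy z hz).2.2, zero_mul]
  -- conclusion
  have h2 : V2 ε F (fun x y z => b y z - b x z + b x y) = ∫ x in F, ∫ y, H x y ∂m2 ∂m2 := by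
    unfold V2
    exact setIntegral_congr_fun hF.mD fun x hx => hstep1 x (hF.sub hx)
  rw [h2, hsw, setIntegral_congr_fun hF.mD fun y hy => hstep3 y (hF.sub hy)]
  simp

end Pool.Agent.Helper10.QA
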